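import Mathlib

open Set Topology Filter TopologicalSpace

universe u w

namespace Pool.Agent.Results.MP_d44cd8_gt.MetricAnalog

/-- `X` is quasimetrizable: some quasimetric `d` (nonnegative, zero on the diagonal, triangle
inequality, no symmetry) has the property that the balls `{y | d x y < r}` with `r > 0`
form a base of the topology of `X`. -/
def Quasimetrizable (X : Type u) [TopologicalSpace X] : Prop :=
  ∃ d : X → X → ℝ, (∀ x y, 0 ≤ d x y) ∧ (∀ x, d x x = 0) ∧
    (∀ x y z, d x z ≤ d x y + d y z) ∧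
    IsTopologicalBasis {B : Set X | ∃ (x : X) (r : ℝ), 0 < r ∧ B = {y | d x y < r}}

/-- The based metric space `(M, m₀)` with `q : M → X` is a metric analog of the based
space `(X, x₀)`. -/
structure IsMetricAnalog (X : Type u) [TopologicalSpace X] (x₀ : X)
    (M : Type u) [MetricSpace M] (m₀ : M) (q : M → X) : Prop where
  /-- `q` is an open quotient map -/
  isOpenQuotientMap : IsOpenQuotientMap q
  /-- `q` preserves base points -/
  base : q m₀ = x₀
  /-- every map from a based metric space to `X` lifts to `M` -/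
  exists_lift : ∀ (A : Type w) [MetricSpace A] (a₀ : A) (f : A → X), Continuous f → f a₀ = x₀ →
    ∃ g : A → M, Continuous g ∧ g a₀ = m₀ ∧ f = q ∘ g
  /-- two maps from a based metric space to `M` with the same composite to `X` are
  homotopic through a based homotopy that stays in the fibres of `q` -/
  exists_homotopy : ∀ (A : Type w) [MetricSpace A] (a₀ : A) (f g : A → M),
    Continuous f → Continuous g → f a₀ = m₀ → g a₀ = m₀ → q ∘ f = q ∘ g →
    ∃ F : A × unitInterval → M, Continuous F ∧ (∀ a, F (a, 0) = f a) ∧ (∀ a, F (a, 1) = g a) ∧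
      (∀ s, F (a₀, s) = m₀) ∧ ∀ (a : A) (s t : unitInterval), q (F (a, s)) = q (F (a, t))

/-- The based space `(X, x₀)` has a metric analog. -/
def HasMetricAnalog (X : Type u) [TopologicalSpace X] (x₀ : X) : Prop :=
  ∃ (M : Type u) (_ : MetricSpace M) (m₀ : M) (q : M → X), IsMetricAnalog.{u, w} X x₀ M m₀ q

/-! ### The universal construction -/

section Construction

variable {X : Type u} [TopologicalSpace X]

/-- the normed space of summable functions on the power set of `X` -/
abbrev E (X : Type u) := lp (fun _ : Set X => ℝ) 1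

/-- `p` is a sequence of nonnegative, nonzero, finitely supported functions, supported on open
sets which contain `x` and shrink to `x`. -/
def Good (x : X) (p : ℕ → E X) : Prop :=
  (∀ n U, 0 ≤ p n U) ∧ (∀ n, ∃ U, p n U ≠ 0) ∧ (∀ n, {U | p n U ≠ 0}.Finite) ∧
  (∀ n U, p n U ≠ 0 → IsOpen U ∧ x ∈ U) ∧
  (∀ W, IsOpen W → x ∈ W → ∃ N, ∀ n ≥ N, ∀ U, p n U ≠ 0 → U ⊆ W)

/-- The total space. -/
abbrev Tot (X : Type u) [TopologicalSpace X] := {p : ℕ → E X // ∃ x, Good x p}

theorem metrizable_tot : MetrizableSpace (Tot X) := IsEmbedding.subtypeVal.metrizableSpace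

/-- The projection. -/
noncomputable def proj (m : Tot X) : X := m.2.choose

theorem good_proj (m : Tot X) : Good (proj m) m.1 := m.2.choose_spec

theorem Good.specializes {x y : X} {p : ℕ → E X} (hx : Good x p) (hy : Good y p)
    {W : Set X} (hW : IsOpen W) (hxW : x ∈ W) : y ∈ W := by
  obtain ⟨N, hN⟩ := hx.2.2.2.2 W hW hxW
  obtain ⟨U, hU⟩ := hx.2.1 N
  exact hN N le_rfl U hU (hy.2.2.2.1 N U hU).2

theorem Good.unique [T0Space X] {x y : X} {p : ℕ → E X} (hx : Good x p) (hy : Good y p) :
    x = y := by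
  apply T0Space.t0
  rw [inseparable_iff_forall_isOpen]
  intro W hW
  exact ⟨fun h => hx.specializes hy hW h, fun h => hy.specializes hx hW h⟩

theorem proj_eq [T0Space X] {m : Tot X} {x : X} (h : Good x m.1) : proj m = x :=
  (good_proj m).unique h

omit [TopologicalSpace X] in
theorem continuous_eval (U : Set X) : Continuous (fun p : E X => p U) := by
  have := (lp.uniformContinuous_coe (E := fun _ : Set X => ℝ) (p := 1)).continuous
  exact (continuous_apply U).comp this

theorem continuous_proj : Continuous (proj : Tot X → X) := by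
  rw [continuous_iff_continuousAt]
  intro m W hW
  rw [mem_map]
  obtain ⟨W', hW'W, hW', hmW'⟩ := mem_nhds_iff.1 hW
  obtain ⟨N, hN⟩ := (good_proj m).2.2.2.2 W' hW' hmW'
  obtain ⟨U, hU⟩ := (good_proj m).2.1 N
  have hopen : IsOpen {m' : Tot X | m'.1 N U ≠ 0} := by
    have hc : Continuous (fun m' : Tot X => m'.1 N U) :=
      (continuous_eval U).comp ((continuous_apply N).comp continuous_subtype_val)
    exact isOpen_ne.preimage hc
  filter_upwards [hopen.mem_nhds hU] with m' hm'
  exact hW'W (hN N le_rfl U hU ((good_proj m').2.2.2.1 N U hm').2)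

/-- a shrinking sequence of open neighbourhoods at each point -/
def Base (X : Type u) [TopologicalSpace X] (B : X → ℕ → Set X) : Prop :=
  ∀ x, (∀ n, IsOpen (B x n) ∧ x ∈ B x n) ∧ ∀ W, IsOpen W → x ∈ W → ∃ N, ∀ n ≥ N, B x n ⊆ W

/-- the canonical point over `x` -/
noncomputable def pt (B : X → ℕ → Set X) (x : X) : ℕ → E X := fun n => lp.single 1 (B x n) 1

omit [TopologicalSpace X] in
theorem pt_ne_zero {B : X → ℕ → Set X} {x : X} {n : ℕ} {U : Set X} :
    pt B x n U ≠ 0 ↔ U = B x n := by
  unfold pt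
  rw [lp.single_apply]
  by_cases h : U = B x n
  · subst h; simp
  · simp [h]

theorem good_pt {B : X → ℕ → Set X} (hB : Base X B) (x : X) : Good x (pt B x) := by
  refine ⟨?_, ?_, ?_, ?_, ?_⟩
  · intro n U
    unfold pt
    rw [lp.single_apply]
    by_cases h : U = B x n
    · subst h; simp
    · simp [Pi.single_eq_of_ne h]
  · intro n
    exact ⟨B x n, pt_ne_zero.2 rfl⟩
  · intro n
    refine (Set.finite_singleton (B x n)).subset ?_
    intro U hU
    exact pt_ne_zero.1 hU
  · intro n U hU
    rw [pt_ne_zero.1 hU]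
    exact (hB x).1 n
  · intro W hW hxW
    obtain ⟨N, hN⟩ := (hB x).2 W hW hxW
    refine ⟨N, fun n hn U hU => ?_⟩
    rw [pt_ne_zero.1 hU]
    exact hN n hn

theorem isOpenMap_proj [T0Space X] {B : X → ℕ → Set X} (hB : Base X B) :
    IsOpenMap (proj : Tot X → X) := by
  rw [isOpenMap_iff_nhds_le]
  intro m S hS
  rw [mem_map] at hS
  -- hS : proj ⁻¹' S ∈ 𝓝 m
  obtain ⟨T, hT, hTS⟩ := mem_nhds_subtype _ _ _ |>.1 hS
  rw [nhds_pi, Filter.mem_pi] at hT
  obtain ⟨I, hI, t, ht, htT⟩ := hT
  have hm := good_proj m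
  -- bound for I
  obtain ⟨N, hN⟩ := hI.bddAbove
  let G : Set X := ⋂ n ∈ Finset.range (N + 1), ⋂ U ∈ (hm.2.2.1 n).toFinset, U
  have hGo : IsOpen G := by
    apply isOpen_biInter_finset
    intro n _
    apply isOpen_biInter_finset
    intro U hU
    exact (hm.2.2.2.1 n U (by simpa using hU)).1
  have hG : proj m ∈ G := by
    simp only [G, mem_iInter]
    intro n _ U hU
    exact (hm.2.2.2.1 n U (by simpa using hU)).2
  refine mem_of_superset (hGo.mem_nhds hG) ?_
  intro x hx
  let p' : ℕ → E X := fun n => if n ≤ N then m.1 n else pt B x n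
  have hpt := good_pt hB x
  have hgood : Good x p' := by
    refine ⟨?_, ?_, ?_, ?_, ?_⟩
    · intro n U
      by_cases h : n ≤ N
      · simp only [p', h, if_true]; exact hm.1 n U
      · simp only [p', h, if_false]; exact hpt.1 n U
    · intro n
      by_cases h : n ≤ N
      · simp only [p', h, if_true]; exact hm.2.1 n
      · simp only [p', h, if_false]; exact hpt.2.1 n
    · intro n
      by_cases h : n ≤ N
      · simp only [p', h, if_true]; exact hm.2.2.1 n
      · simp only [p', h, if_false]; exact hpt.2.2.1 n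
    · intro n U
      by_cases h : n ≤ N
      · simp only [p', h, if_true]
        intro hU
        refine ⟨(hm.2.2.2.1 n U hU).1, ?_⟩
        simp only [G, mem_iInter] at hx
        exact hx n (by simpa using Nat.lt_succ_of_le h) U (by simpa using hU)
      · simp only [p', h, if_false]; exact hpt.2.2.2.1 n U
    · intro W hW hxW
      obtain ⟨N', hN'⟩ := hpt.2.2.2.2 W hW hxW
      refine ⟨max N' (N + 1), fun n hn U hU => ?_⟩
      have h : ¬ n ≤ N := by
        have := le_trans (le_max_right N' (N + 1)) hn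
        omega
      simp only [p', h, if_false] at hU
      exact hN' n (le_trans (le_max_left _ _) hn) U hU
  have hmem : proj (⟨p', x, hgood⟩ : Tot X) ∈ S := by
    apply hTS
    change p' ∈ T
    apply htT
    intro n hn
    have : n ≤ N := hN hn
    simp only [p', this, if_true]
    exact mem_of_mem_nhds (ht n)
  have : proj (⟨p', x, hgood⟩ : Tot X) = x := proj_eq hgood
  rwa [this] at hmem

theorem Good.combo {x : X} {p p' : ℕ → E X} (hp : Good x p) (hp' : Good x p') (s : unitInterval) :
    Good x (fun n => (1 - (s : ℝ)) • p n + (s : ℝ) • p' n) := by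
  have hs0 : (0 : ℝ) ≤ s := s.2.1
  have hs1 : (0 : ℝ) ≤ 1 - s := sub_nonneg.2 s.2.2
  have hval : ∀ n U, ((1 - (s : ℝ)) • p n + (s : ℝ) • p' n : E X) U
      = (1 - (s : ℝ)) * p n U + (s : ℝ) * p' n U := fun n U => rfl
  have hne : ∀ n U, ((1 - (s : ℝ)) • p n + (s : ℝ) • p' n : E X) U ≠ 0 → p n U ≠ 0 ∨ p' n U ≠ 0 := by
    intro n U h
    by_contra hcon
    push Not at hcon
    apply h
    rw [hval, hcon.1, hcon.2]
    simp
  refine ⟨?_, ?_, ?_, ?_, ?_⟩
  · intro n U
    rw [hval]
    exact add_nonneg (mul_nonneg hs1 (hp.1 n U)) (mul_nonneg hs0 (hp'.1 n U))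
  · intro n
    by_cases hs : (s : ℝ) = 0
    · obtain ⟨U, hU⟩ := hp.2.1 n
      refine ⟨U, ?_⟩
      rw [hval, hs]
      simpa using hU
    · obtain ⟨U, hU⟩ := hp'.2.1 n
      refine ⟨U, ?_⟩
      rw [hval]
      have h1 : 0 < p' n U := lt_of_le_of_ne (hp'.1 n U) (Ne.symm hU)
      have h2 : (0 : ℝ) < s := lt_of_le_of_ne hs0 (Ne.symm hs)
      have h3 := mul_nonneg hs1 (hp.1 n U)
      have h4 := mul_pos h2 h1
      linarith
  · intro n
    refine ((hp.2.2.1 n).union (hp'.2.2.1 n)).subset ?_
    intro U hU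
    exact hne n U hU
  · intro n U hU
    rcases hne n U hU with h | h
    · exact hp.2.2.2.1 n U h
    · exact hp'.2.2.2.1 n U h
  · intro W hW hxW
    obtain ⟨N, hN⟩ := hp.2.2.2.2 W hW hxW
    obtain ⟨N', hN'⟩ := hp'.2.2.2.2 W hW hxW
    refine ⟨max N N', fun n hn U hU => ?_⟩
    rcases hne n U hU with h | h
    · exact hN n (le_trans (le_max_left _ _) hn) U h
    · exact hN' n (le_trans (le_max_right _ _) hn) U h

theorem exists_homotopy [T0Space X] {A : Type w} [TopologicalSpace A] (f g : A → Tot X)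
    (hf : Continuous f) (hg : Continuous g) (hfg : ∀ a, proj (f a) = proj (g a)) :
    ∃ F : A × unitInterval → Tot X, Continuous F ∧ (∀ a, F (a, 0) = f a) ∧
      (∀ a, F (a, 1) = g a) ∧ (∀ a s, f a = g a → F (a, s) = f a) ∧
      ∀ (a : A) (s t : unitInterval), proj (F (a, s)) = proj (F (a, t)) := by
  have key : ∀ z : A × unitInterval, Good (proj (f z.1))
      (fun n => (1 - (z.2 : ℝ)) • (f z.1).1 n + (z.2 : ℝ) • (g z.1).1 n) := by
    intro z
    apply Good.combo (good_proj _)
    rw [hfg]
    exact good_proj _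
  refine ⟨fun z => ⟨_, _, key z⟩, ?_, ?_, ?_, ?_, ?_⟩
  · apply Continuous.subtype_mk
    apply continuous_pi
    intro n
    have h1 : Continuous (fun z : A × unitInterval => (f z.1).1 n) :=
      (continuous_apply n).comp (continuous_subtype_val.comp (hf.comp continuous_fst))
    have h2 : Continuous (fun z : A × unitInterval => (g z.1).1 n) :=
      (continuous_apply n).comp (continuous_subtype_val.comp (hg.comp continuous_fst))
    have h3 : Continuous (fun z : A × unitInterval => (z.2 : ℝ)) :=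
      continuous_subtype_val.comp continuous_snd
    exact ((continuous_const.sub h3).smul h1).add (h3.smul h2)
  · intro a
    apply Subtype.ext
    funext n
    simp
  · intro a
    apply Subtype.ext
    funext n
    simp
  · intro a s h
    apply Subtype.ext
    funext n
    simp only [h]
    rw [← add_smul]
    simp
  · intro a s t
    exact (proj_eq (m := ⟨_, _, key (a, s)⟩) (key (a, s))).trans
      (proj_eq (m := ⟨_, _, key (a, t)⟩) (key (a, t))).symm

/-- a map from a metric space to `X` for which the required families of open sets exist -/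
def GoodMap {A : Type w} [MetricSpace A] (f : A → X) : Prop :=
  ∃ (U : ℕ → A → Set X) (V : ℕ → A → Set A),
    (∀ n a, IsOpen (U n a)) ∧ (∀ n a, IsOpen (V n a)) ∧ (∀ n a, a ∈ V n a) ∧
    (∀ n a, ∀ b ∈ V n a, f b ∈ U n a) ∧
    (∀ a, ∀ W, IsOpen W → f a ∈ W → ∃ N, ∀ n ≥ N, ∀ b, a ∈ V n b → U n b ⊆ W)

theorem exists_lift [T0Space X] {B : X → ℕ → Set X} (hB : Base X B) {A : Type w} [MetricSpace A]
    (a₀ : A) (f : A → X) (hf : Continuous f) (hgood : GoodMap f) :
    ∃ g : A → Tot X, Continuous g ∧ (g a₀).1 = pt B (f a₀) ∧ ∀ a, proj (g a) = f a := by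
  classical
  obtain ⟨U, V, hU, hV, haV, hVU, hsh⟩ := hgood
  -- modified families
  let U' : ℕ → A → Set X := fun n a => if a = a₀ then B (f a₀) n else U n a
  let V' : ℕ → A → Set A := fun n a =>
    if a = a₀ then f ⁻¹' (B (f a₀) n) ∩ Metric.ball a₀ ((1 / 2) ^ n) else V n a \ {a₀}
  have hU' : ∀ n a, IsOpen (U' n a) := by
    intro n a
    by_cases h : a = a₀
    · simp only [U', h, if_true]; exact ((hB _).1 n).1
    · simp only [U', h, if_false]; exact hU n a
  have hV' : ∀ n a, IsOpen (V' n a) := by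
    intro n a
    by_cases h : a = a₀
    · simp only [V', h, if_true]
      exact (((hB _).1 n).1.preimage hf).inter Metric.isOpen_ball
    · simp only [V', h, if_false]
      exact (hV n a).sdiff isClosed_singleton
  have haV' : ∀ n a, a ∈ V' n a := by
    intro n a
    by_cases h : a = a₀
    · simp only [V', h, if_true]
      refine ⟨((hB _).1 n).2, Metric.mem_ball_self (by positivity)⟩
    · simp only [V', h, if_false]
      exact ⟨haV n a, h⟩
  have hVU' : ∀ n a, ∀ b ∈ V' n a, f b ∈ U' n a := by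
    intro n a b hb
    by_cases h : a = a₀
    · simp only [V', h, if_true] at hb
      simp only [U', h, if_true]
      exact hb.1
    · simp only [V', h, if_false] at hb
      simp only [U', h, if_false]
      exact hVU n a b hb.1
  have hsh' : ∀ a, ∀ W, IsOpen W → f a ∈ W → ∃ N, ∀ n ≥ N, ∀ b, a ∈ V' n b → U' n b ⊆ W := by
    intro a W hW haW
    obtain ⟨N, hN⟩ := hsh a W hW haW
    by_cases ha : a = a₀
    · subst ha
      obtain ⟨N', hN'⟩ := (hB _).2 W hW haW
      refine ⟨max N N', fun n hn b hb => ?_⟩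
      by_cases h : b = a
      · simp only [U', h, if_true]
        exact hN' n (le_trans (le_max_right _ _) hn)
      · simp only [V', h, if_false] at hb
        exact absurd rfl hb.2
    · have hpos : 0 < dist a a₀ := dist_pos.2 ha
      obtain ⟨N', hN'⟩ := exists_pow_lt_of_lt_one hpos (by norm_num : (1 / 2 : ℝ) < 1)
      refine ⟨max N N', fun n hn b hb => ?_⟩
      by_cases h : b = a₀
      · simp only [V', h, if_true] at hb
        have h1 : dist a a₀ < (1 / 2) ^ n := hb.2
        have h2 : ((1 / 2 : ℝ)) ^ n ≤ (1 / 2) ^ N' :=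
          pow_le_pow_of_le_one (by norm_num) (by norm_num) (le_trans (le_max_right _ _) hn)
        linarith
      · simp only [V', h, if_false] at hb
        simp only [U', h, if_false]
        exact hN n (le_trans (le_max_left _ _) hn) b hb.1
  -- partitions of unity
  have hpou : ∀ n, ∃ ρ : PartitionOfUnity A A univ, ρ.IsSubordinate (V' n) := fun n =>
    PartitionOfUnity.exists_isSubordinate isClosed_univ (V' n) (hV' n)
      (fun a _ => mem_iUnion.2 ⟨a, haV' n a⟩)
  choose ρ hρ using hpou
  have hρmem : ∀ n a b, ρ n b a ≠ 0 → a ∈ V' n b := by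
    intro n a b h
    exact hρ n b (subset_tsupport _ h)
  let P : ℕ → A → E X := fun n a => ∑ᶠ b, ρ n b a • (lp.single 1 (U' n b) (1 : ℝ) : E X)
  have hPcont : ∀ n, Continuous (P n) := fun n =>
    (ρ n).continuous_finsum_smul (fun b a _ => continuousAt_const)
  have hPval : ∀ n a W, P n a W = ∑ b ∈ (ρ n).finsupport a, ρ n b a *
      (if W = U' n b then (1 : ℝ) else 0) := by
    intro n a W
    have h1 : P n a = ∑ b ∈ (ρ n).finsupport a, ρ n b a • (lp.single 1 (U' n b) (1 : ℝ) : E X) :=
      ((ρ n).sum_finsupport_smul_eq_finsum (fun b _ => (lp.single 1 (U' n b) (1 : ℝ) : E X))).symm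
    rw [h1, lp.coeFn_sum, Finset.sum_apply]
    apply Finset.sum_congr rfl
    intro b _
    rw [lp.coeFn_smul, Pi.smul_apply, lp.single_apply, smul_eq_mul]
    congr 1
    by_cases h : W = U' n b
    · rw [if_pos h, ← h]; simp
    · rw [if_neg h, Pi.single_eq_of_ne h]
  have hPne : ∀ n a W, P n a W ≠ 0 → ∃ b, ρ n b a ≠ 0 ∧ W = U' n b := by
    intro n a W h
    rw [hPval] at h
    obtain ⟨b, hb, hb'⟩ := Finset.exists_ne_zero_of_sum_ne_zero h
    refine ⟨b, left_ne_zero_of_mul hb', ?_⟩
    by_contra hW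
    rw [if_neg hW, mul_zero] at hb'
    exact hb' rfl
  have key : ∀ a, Good (f a) (fun n => P n a) := by
    intro a
    refine ⟨?_, ?_, ?_, ?_, ?_⟩
    · intro n W
      rw [hPval]
      apply Finset.sum_nonneg
      intro b _
      apply mul_nonneg ((ρ n).nonneg b a)
      split_ifs <;> norm_num
    · intro n
      obtain ⟨b, hb⟩ := (ρ n).exists_pos (mem_univ a)
      refine ⟨U' n b, ?_⟩
      rw [hPval]
      apply ne_of_gt
      apply Finset.sum_pos'
      · intro c _
        apply mul_nonneg ((ρ n).nonneg c a)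
        split_ifs <;> norm_num
      · refine ⟨b, ?_, ?_⟩
        · rw [PartitionOfUnity.mem_finsupport]
          exact ne_of_gt hb
        · simp [hb]
    · intro n
      refine (((ρ n).finsupport a).finite_toSet.image (fun b => U' n b)).subset ?_
      intro W hW
      obtain ⟨b, hb, rfl⟩ := hPne n a W hW
      refine ⟨b, ?_, rfl⟩
      rw [Finset.mem_coe, PartitionOfUnity.mem_finsupport]
      exact hb
    · intro n W hW
      obtain ⟨b, hb, rfl⟩ := hPne n a W hW
      exact ⟨hU' n b, hVU' n b a (hρmem n a b hb)⟩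
    · intro W hW haW
      obtain ⟨N, hN⟩ := hsh' a W hW haW
      refine ⟨N, fun n hn W' hW' => ?_⟩
      obtain ⟨b, hb, rfl⟩ := hPne n a W' hW'
      exact hN n hn b (hρmem n a b hb)
  refine ⟨fun a => ⟨fun n => P n a, f a, key a⟩, ?_, ?_, fun a => proj_eq (key a)⟩
  · apply Continuous.subtype_mk
    exact continuous_pi hPcont
  · funext n
    have hz : ∀ b, b ≠ a₀ → ρ n b a₀ = 0 := by
      intro b hb
      by_contra h
      have := hρmem n a₀ b h
      simp only [V', hb, if_false] at this
      exact this.2 rfl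
    have h1 : ρ n a₀ a₀ = 1 := by
      have := (ρ n).sum_eq_one (mem_univ a₀)
      rwa [finsum_eq_single _ a₀ (fun b hb => hz b hb)] at this
    change (∑ᶠ b, ρ n b a₀ • (lp.single 1 (U' n b) (1 : ℝ) : E X)) = pt B (f a₀) n
    rw [finsum_eq_single _ a₀ (fun b hb => by rw [hz b hb, zero_smul]), h1, one_smul]
    simp [U', pt]

/-- The local condition that makes the construction work: `X` is covered by open sets `O` each
of which carries a family `G n y` of open neighbourhoods of its points `y` such that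
`G n z` shrinks to `y` when `z` tends to `y` in `O` and `n` tends to infinity. -/
def LocGamma (X : Type u) [TopologicalSpace X] : Prop :=
  ∀ x : X, ∃ O : Set X, IsOpen O ∧ x ∈ O ∧ ∃ G : ℕ → X → Set X,
    (∀ n, ∀ y ∈ O, IsOpen (G n y) ∧ y ∈ G n y) ∧
    (∀ y ∈ O, ∀ W, IsOpen W → y ∈ W →
      ∃ W', IsOpen W' ∧ y ∈ W' ∧ ∃ N : ℕ, ∀ n ≥ N, ∀ z ∈ W' ∩ O, G n z ⊆ W)

theorem LocGamma.exists_base (h : LocGamma X) : ∃ B : X → ℕ → Set X, Base X B := by
  choose O hO hxO G hG hG' using h
  refine ⟨fun x n => G x n x, fun x => ⟨fun n => hG x n x (hxO x), fun W hW hxW => ?_⟩⟩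
  obtain ⟨W', _, hxW', N, hN⟩ := hG' x x (hxO x) W hW hxW
  exact ⟨N, fun n hn => hN n hn x ⟨hxW', hxO x⟩⟩

theorem LocGamma.goodMap (h : LocGamma X) {A : Type w} [MetricSpace A] (f : A → X)
    (hf : Continuous f) : GoodMap f := by
  choose O hO hxO G hG hG' using h
  -- a locally finite refinement of the cover by the sets `f ⁻¹' O x`
  obtain ⟨P, hPo, hPc, hPlf, hPO⟩ := precise_refinement (fun x : X => f ⁻¹' (O x))
    (fun x => (hO x).preimage hf)
    (by
      rw [eq_univ_iff_forall]
      intro a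
      exact mem_iUnion.2 ⟨f a, hxO (f a)⟩)
  have hex : ∀ a, ∃ x, a ∈ P x := by
    intro a
    have : a ∈ ⋃ x, P x := by rw [hPc]; trivial
    exact mem_iUnion.1 this
  choose i hi using hex
  refine ⟨fun n a => G (i a) n (f a),
    fun n a => P (i a) ∩ f ⁻¹' (G (i a) n (f a)) ∩ Metric.ball a ((1 / 2) ^ n), ?_, ?_, ?_, ?_, ?_⟩
  · intro n a
    exact (hG (i a) n (f a) (hPO _ (hi a))).1
  · intro n a
    exact ((hPo _).inter ((hG (i a) n (f a) (hPO _ (hi a))).1.preimage hf)).inter Metric.isOpen_ball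
  · intro n a
    exact ⟨⟨hi a, (hG (i a) n (f a) (hPO _ (hi a))).2⟩, Metric.mem_ball_self (by positivity)⟩
  · intro n a b hb
    exact hb.1.2
  · intro a W hW haW
    -- local finiteness at `a`
    obtain ⟨T, hT, hTfin⟩ := hPlf a
    -- for each index `x`, a number
    have hx : ∀ x : X, ∃ N : ℕ, a ∈ P x → ∀ n ≥ N, ∀ b ∈ P x, dist a b < (1 / 2) ^ n →
        G x n (f b) ⊆ W := by
      intro x
      by_cases hax : a ∈ P x
      · obtain ⟨W', hW', haW', N, hN⟩ := hG' x (f a) (hPO x hax) W hW haW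
        obtain ⟨r, hr, hrW⟩ := Metric.isOpen_iff.1 (hW'.preimage hf) a haW'
        obtain ⟨N', hN'⟩ := exists_pow_lt_of_lt_one hr (by norm_num : (1 / 2 : ℝ) < 1)
        refine ⟨max N N', fun _ n hn b hb hab => ?_⟩
        apply hN n (le_trans (le_max_left _ _) hn)
        refine ⟨hrW ?_, hPO x hb⟩
        rw [Metric.mem_ball, dist_comm]
        have h2 : ((1 / 2 : ℝ)) ^ n ≤ (1 / 2) ^ N' :=
          pow_le_pow_of_le_one (by norm_num) (by norm_num) (le_trans (le_max_right _ _) hn)
        linarith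
      · exact ⟨0, fun h => absurd h hax⟩
    choose N hN using hx
    obtain ⟨r, hr, hrT⟩ := Metric.mem_nhds_iff.1 hT
    obtain ⟨N₀, hN₀⟩ := exists_pow_lt_of_lt_one hr (by norm_num : (1 / 2 : ℝ) < 1)
    obtain ⟨N₁, hN₁⟩ := (hTfin.image N).bddAbove
    refine ⟨max N₀ N₁, fun n hn b hb => ?_⟩
    have hab : dist a b < (1 / 2) ^ n := hb.2
    have hbT : b ∈ T := by
      apply hrT
      rw [Metric.mem_ball, dist_comm]
      have h2 : ((1 / 2 : ℝ)) ^ n ≤ (1 / 2) ^ N₀ :=
        pow_le_pow_of_le_one (by norm_num) (by norm_num) (le_trans (le_max_left _ _) hn)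
      linarith
    have hib : N (i b) ≤ N₁ := by
      apply hN₁
      exact ⟨i b, ⟨b, hi b, hbT⟩, rfl⟩
    exact hN (i b) hb.1.1 n (le_trans hib (le_trans (le_max_right _ _) hn)) b (hi b) hab

end Construction

/-- The main existence theorem. -/
theorem hasMetricAnalog_of_locGamma (X : Type u) [TopologicalSpace X] [T0Space X] (x₀ : X)
    (h : LocGamma X) : HasMetricAnalog.{u, w} X x₀ := by
  obtain ⟨B, hB⟩ := h.exists_base
  have := metrizable_tot (X := X)
  let _ : MetricSpace (Tot X) := metrizableSpaceMetric (Tot X)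
  refine ⟨Tot X, inferInstance, ⟨pt B x₀, x₀, good_pt hB x₀⟩, proj, ?_, proj_eq (good_pt hB x₀),
    ?_, ?_⟩
  · refine ⟨?_, continuous_proj, isOpenMap_proj hB⟩
    intro x
    exact ⟨⟨pt B x, x, good_pt hB x⟩, proj_eq (good_pt hB x)⟩
  · intro A _ a₀ f hf hfa
    obtain ⟨g, hg, hg0, hgf⟩ := exists_lift hB a₀ f hf (h.goodMap f hf)
    refine ⟨g, hg, ?_, ?_⟩
    · apply Subtype.ext
      rw [hg0, hfa]
    · funext a
      exact (hgf a).symm
  · intro A _ a₀ f g hf hg hfa hga hfg
    obtain ⟨F, hF, hF0, hF1, hFb, hFq⟩ := exists_homotopy f g hf hg (fun a => congrFun hfg a)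
    refine ⟨F, hF, hF0, hF1, ?_, hFq⟩
    intro s
    rw [hFb a₀ s (hfa.trans hga.symm), hfa]

/-- Quasimetrizable spaces satisfy the local condition. -/
theorem Quasimetrizable.locGamma {X : Type u} [TopologicalSpace X] (h : Quasimetrizable X) :
    LocGamma X := by
  obtain ⟨d, hd0, hdd, htri, hB⟩ := h
  intro x
  refine ⟨univ, isOpen_univ, mem_univ x, fun n y => {z | d y z < (1 / 2) ^ n}, ?_, ?_⟩
  · intro n y _
    refine ⟨hB.isOpen ⟨y, _, by positivity, rfl⟩, ?_⟩
    change d y y < _
    rw [hdd]; positivity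
  · intro y _ W hW hyW
    obtain ⟨C, ⟨c, r, hr, rfl⟩, hyC, hCW⟩ := hB.exists_subset_of_mem_open hyW hW
    have hyC' : d c y < r := hyC
    have hpos : 0 < (r - d c y) / 2 := by linarith
    refine ⟨{z | d y z < (r - d c y) / 2}, hB.isOpen ⟨y, _, hpos, rfl⟩, ?_, ?_⟩
    · change d y y < _
      rw [hdd]; exact hpos
    · obtain ⟨N, hN⟩ := exists_pow_lt_of_lt_one hpos (by norm_num : (1 / 2 : ℝ) < 1)
      refine ⟨N, fun n hn z hz t ht => ?_⟩
      apply hCW
      have h1 : d y z < (r - d c y) / 2 := hz.1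
      have h2 : d z t < (1 / 2) ^ n := ht
      have h3 : ((1 / 2 : ℝ)) ^ n ≤ (1 / 2) ^ N :=
        pow_le_pow_of_le_one (by norm_num) (by norm_num) hn
      have h4 := htri c y t
      have h5 := htri y z t
      change d c t < r
      linarith

/-! ### The first uncountable ordinal -/

section OmegaOne

variable {X : Type u} [LinearOrder X] [WellFoundedLT X]

omit [WellFoundedLT X] in
/-- countable subsets are strictly bounded -/
theorem exists_bound (hc : ∀ x : X, (Iio x).Countable) (hu : Uncountable X) (s : Set X)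
    (hs : s.Countable) : ∃ b, ∀ a ∈ s, a < b := by
  by_contra hcon
  push Not at hcon
  have h1 : (⋃ a ∈ s, Iic a).Countable := by
    apply hs.biUnion
    intro a _
    rw [← Iio_insert]
    exact (hc a).insert a
  have h2 : (⋃ a ∈ s, Iic a) = univ := by
    rw [eq_univ_iff_forall]
    intro b
    obtain ⟨a, ha, hba⟩ := hcon b
    exact mem_biUnion ha hba
  rw [h2] at h1
  exact not_countable_univ h1

/-- closure points of a function -/
theorem exists_closure_point (hc : ∀ x : X, (Iio x).Countable) (hu : Uncountable X)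
    (k : X → X) (x₀ : X) : ∃ x, x₀ < x ∧ ∀ c < x, k c < x := by
  have hstep : ∀ x : X, ∃ b, x < b ∧ ∀ c ≤ x, k c < b := by
    intro x
    obtain ⟨b, hb⟩ := exists_bound hc hu (insert x (k '' (Iic x)))
      (((by rw [← Iio_insert]; exact (hc x).insert x : (Iic x).Countable).image k).insert x)
    exact ⟨b, hb x (mem_insert _ _), fun c hcx => hb _ (mem_insert_of_mem _ ⟨c, hcx, rfl⟩)⟩
  choose nxt hnxt hnxt' using hstep
  let q : ℕ → X := fun n => nxt^[n] (nxt x₀)
  have hq : ∀ n, q (n + 1) = nxt (q n) := fun n => Function.iterate_succ_apply' nxt n _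
  obtain ⟨b, hb⟩ := exists_bound hc hu (range q) (countable_range q)
  have hne : (upperBounds (range q)).Nonempty := ⟨b, fun a ha => (hb a ha).le⟩
  let x := WellFounded.min (wellFounded_lt (α := X)) _ hne
  have hx : x ∈ upperBounds (range q) := WellFounded.min_mem _ _ hne
  refine ⟨x, lt_of_lt_of_le (hnxt x₀) (hx ⟨0, rfl⟩), fun c hcx => ?_⟩
  have hcn : c ∉ upperBounds (range q) := fun h =>
    WellFounded.not_lt_min (wellFounded_lt (α := X)) _ h hcx
  have : ∃ n, c < q n := by
    by_contra hcon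
    push Not at hcon
    apply hcn
    rintro _ ⟨n, rfl⟩
    exact hcon n
  obtain ⟨n, hn⟩ := this
  have h1 : k c < q (n + 1) := by rw [hq]; exact hnxt' _ c hn.le
  exact lt_of_lt_of_le h1 (hx ⟨n + 1, rfl⟩)

variable [TopologicalSpace X] [OrderTopology X]

theorem isOpen_Iic_of_bound (hc : ∀ x : X, (Iio x).Countable) (hu : Uncountable X) (x : X) :
    IsOpen (Iic x) := by
  obtain ⟨b, hb⟩ := exists_bound hc hu {x} (countable_singleton x)
  have hne : (Ioi x).Nonempty := ⟨b, hb x rfl⟩
  let s := WellFounded.min (wellFounded_lt (α := X)) _ hne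
  have hs : x < s := WellFounded.min_mem _ _ hne
  have : Iic x = Iio s := by
    ext y
    constructor
    · intro hy
      exact lt_of_le_of_lt hy hs
    · intro hy
      by_contra hcon
      exact WellFounded.not_lt_min (wellFounded_lt (α := X)) _ (not_le.1 hcon : x < y) hy
  rw [this]
  exact isOpen_Iio

theorem locGamma_omega (hc : ∀ x : X, (Iio x).Countable) (hu : Uncountable X) : LocGamma X := by
  intro x
  have hIic : (Iic x).Countable := by rw [← Iio_insert]; exact (hc x).insert x
  obtain ⟨e, he⟩ := hIic.exists_eq_range ⟨x, le_refl x⟩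
  refine ⟨Iic x, isOpen_Iic_of_bound hc hu x, le_refl x,
    fun n y => Iic y ∩ ⋂ k ∈ Finset.range (n + 1), (if e k < y then Ioi (e k) else univ), ?_, ?_⟩
  · intro n y _
    constructor
    · apply (isOpen_Iic_of_bound hc hu y).inter
      apply isOpen_biInter_finset
      intro k _
      split_ifs
      · exact isOpen_Ioi
      · exact isOpen_univ
    · refine ⟨le_refl y, ?_⟩
      simp only [mem_iInter]
      intro k _
      split_ifs with h
      · exact h
      · trivial
  · intro y hy W hW hyW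
    by_cases hmin : ∃ l, l < y
    · obtain ⟨l, hl, hlW⟩ := exists_Ioc_subset_of_mem_nhds (hW.mem_nhds hyW) hmin
      have hlr : l ∈ range e := by rw [← he]; exact hl.le.trans hy
      obtain ⟨k, rfl⟩ := hlr
      refine ⟨Ioi (e k) ∩ Iic y, isOpen_Ioi.inter (isOpen_Iic_of_bound hc hu y), ⟨hl, le_refl y⟩,
        k, ?_⟩
      rintro n hn z ⟨⟨hz1, hz2⟩, _⟩ t ⟨ht1, ht2⟩
      apply hlW
      simp only [mem_iInter] at ht2
      have h3 := ht2 k (by simpa using Nat.lt_succ_of_le hn)
      rw [if_pos (show e k < z from hz1)] at h3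
      exact ⟨h3, le_trans ht1 hz2⟩
    · push Not at hmin
      refine ⟨Iic y, isOpen_Iic_of_bound hc hu y, le_refl y, 0, ?_⟩
      rintro n _ z ⟨hz, _⟩ t ⟨ht1, _⟩
      have : t = y := le_antisymm (le_trans ht1 hz) (hmin t)
      rw [this]
      exact hyW

theorem not_quasimetrizable_omega (hc : ∀ x : X, (Iio x).Countable) (hu : Uncountable X) :
    ¬ Quasimetrizable X := by
  rintro ⟨d, hd0, hdd, htri, hB⟩
  -- first step
  have hstep1 : ∀ n : ℕ, ∃ c : X, ∀ a : X, ∃ y, a < y ∧ c < y ∧
      Ioc c y ⊆ {z | d y z < (1 / 2) ^ n} := by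
    intro n
    by_contra hcon
    push Not at hcon
    choose k hk using hcon
    obtain ⟨x₀⟩ : Nonempty X := inferInstance
    obtain ⟨x, hx0, hx⟩ := exists_closure_point hc hu k x₀
    have hopen : IsOpen {z | d x z < (1 / 2) ^ n} := hB.isOpen ⟨x, _, by positivity, rfl⟩
    have hmem : x ∈ {z | d x z < (1 / 2) ^ n} := by
      change d x x < _
      rw [hdd]; positivity
    obtain ⟨c, hcx, hcs⟩ := exists_Ioc_subset_of_mem_nhds (hopen.mem_nhds hmem) ⟨x₀, hx0⟩
    exact hk c x (hx c hcx) hcx hcs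
  choose c y hy1 hy2 hy3 using hstep1
  obtain ⟨c', hc'⟩ := exists_bound hc hu (range c) (countable_range c)
  have hk : ∀ a : X, ∃ b, ∀ n, y n a < b := by
    intro a
    obtain ⟨b, hb⟩ := exists_bound hc hu (range fun n => y n a) (countable_range _)
    exact ⟨b, fun n => hb _ ⟨n, rfl⟩⟩
  choose k hk using hk
  obtain ⟨x, hx0, hx⟩ := exists_closure_point hc hu k c'
  obtain ⟨C, ⟨e, r, hr, rfl⟩, hxC, hCW⟩ :=
    hB.exists_subset_of_mem_open (show x ∈ Ioi c' from hx0) isOpen_Ioi
  have hxC' : d e x < r := hxC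
  have hpos : 0 < (r - d e x) / 2 := by linarith
  obtain ⟨n, hn⟩ := exists_pow_lt_of_lt_one hpos (by norm_num : (1 / 2 : ℝ) < 1)
  have hopen : IsOpen {z | d x z < (r - d e x) / 2} := hB.isOpen ⟨x, _, hpos, rfl⟩
  have hmem : x ∈ {z | d x z < (r - d e x) / 2} := by
    change d x x < _
    rw [hdd]; exact hpos
  obtain ⟨a, hax, has⟩ := exists_Ioc_subset_of_mem_nhds (hopen.mem_nhds hmem) ⟨c', hx0⟩
  have ha'x : max a c' < x := max_lt hax hx0
  have h1 : max a c' < y n (max a c') := hy1 n _
  have h2 : y n (max a c') < x := lt_trans (hk _ n) (hx _ ha'x)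
  have h3 : d x (y n (max a c')) < (r - d e x) / 2 :=
    has ⟨lt_of_le_of_lt (le_max_left _ _) h1, h2.le⟩
  have h4 : d (y n (max a c')) c' < (1 / 2) ^ n :=
    hy3 n (max a c') ⟨hc' _ ⟨n, rfl⟩, (lt_of_le_of_lt (le_max_right _ _) h1).le⟩
  have h5 := htri x (y n (max a c')) c'
  have h6 := htri e x c'
  have h7 : c' ∈ Ioi c' := hCW (show d e c' < r by linarith)
  exact lt_irrefl _ h7

end OmegaOne

/-- The first uncountable ordinal, in any universe, as a linear order. -/
theorem exists_omega_one : ∃ (X : Type u) (_ : LinearOrder X) (_ : WellFoundedLT X),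
    (∀ x : X, (Iio x).Countable) ∧ Uncountable X := by
  refine ⟨(Cardinal.aleph 1).ord.ToType, inferInstance, inferInstance, ?_, ?_⟩
  · intro x
    rw [← Cardinal.le_aleph0_iff_set_countable, ← Cardinal.lt_aleph_one_iff]
    simpa using Cardinal.mk_Iio_lt x
  · rw [← Cardinal.aleph0_lt_mk_iff]
    simp

/-- **Answer to Q1.** (a) fails: some Hausdorff space has a metric analog (for every choice of the
base point) but is not quasimetrizable. (b) holds: every quasimetrizable `T₀` based space has a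
metric analog. -/
theorem result :
    (∃ (X : Type u) (_ : TopologicalSpace X), T2Space X ∧ Nonempty X ∧
      (∀ x₀ : X, HasMetricAnalog.{u, w} X x₀) ∧ ¬ Quasimetrizable X) ∧
    (∀ (X : Type u) [TopologicalSpace X] [T0Space X] (x₀ : X),
      Quasimetrizable X → HasMetricAnalog.{u, w} X x₀) := by
  refine ⟨?_, fun X _ _ x₀ h => hasMetricAnalog_of_locGamma X x₀ h.locGamma⟩
  obtain ⟨X, _, _, hc, hu⟩ := exists_omega_one.{u}
  let _ : TopologicalSpace X := Preorder.topology X
  have : OrderTopology X := ⟨rfl⟩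
  refine ⟨X, inferInstance, inferInstance, inferInstance, fun x₀ => ?_, ?_⟩
  · exact hasMetricAnalog_of_locGamma X x₀ (locGamma_omega hc hu)
  · exact not_quasimetrizable_omega hc hu

end Pool.Agent.Results.MP_d44cd8_gt.MetricAnalog
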